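import Pool.Agent.Lib.MP_d577c7_co.CN.Closed

/-!
# MP_d577c7_co: six closed sets which cover the plane realize every distance

Full answer to Q1 (yes), and a stronger theorem for six closed sets which need not be congruent and
cover only a disc of radius `10 d`.
-/

namespace Pool.Agent.Results.MP_d577c7_co.SixClosedSets

/-- (1) If a closed set `A` has six isometric copies which cover the plane, then `A` realizes every
distance `d > 0`. (2) If six closed sets cover some closed disc of radius `10 d`, then at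
least one of them realizes the distance `d`. -/
theorem result :
    (∀ A : Set (EuclideanSpace ℝ (Fin 2)), IsClosed A →
      ∀ g : Fin 6 → (EuclideanSpace ℝ (Fin 2) ≃ᵢ EuclideanSpace ℝ (Fin 2)),
        (⋃ i, g i '' A) = Set.univ → ∀ d : ℝ, 0 < d → ∃ x ∈ A, ∃ y ∈ A, dist x y = d) ∧
    (∀ A : Fin 6 → Set (EuclideanSpace ℝ (Fin 2)), (∀ i, IsClosed (A i)) → ∀ d : ℝ, 0 < d →
      ∀ c : EuclideanSpace ℝ (Fin 2), Metric.closedBall c (10 * d) ⊆ ⋃ i, A i →
        ∃ i, ∃ x ∈ A i, ∃ y ∈ A i, dist x y = d) := by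
  have h2 : ∀ A : Fin 6 → Set (EuclideanSpace ℝ (Fin 2)), (∀ i, IsClosed (A i)) → ∀ d : ℝ, 0 < d →
      ∀ c : EuclideanSpace ℝ (Fin 2), Metric.closedBall c (10 * d) ⊆ ⋃ i, A i →
        ∃ i, ∃ x ∈ A i, ∃ y ∈ A i, dist x y = d := by
    intro A hA d hd c hcov
    have key := Pool.Agent.Lib.MP_d577c7_co.CN.some_realizes
      (fun i => (fun x : EuclideanSpace ℝ (Fin 2) => x + c) ⁻¹' A i)
      (fun i => (hA i).preimage (by fun_prop)) d hd
    obtain ⟨i, x, hx, y, hy, hxy⟩ := key (by
      intro p hp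
      have hmem : p + c ∈ Metric.closedBall c (10 * d) := by
        rw [Metric.mem_closedBall, dist_eq_norm]
        simpa using hp
      have := hcov hmem
      simpa using this)
    exact ⟨i, x + c, hx, y + c, hy, by rw [dist_add_right, hxy]⟩
  refine ⟨?_, h2⟩
  intro A hA g hcov d hd
  obtain ⟨i, x, hx, y, hy, hxy⟩ := h2 (fun i => g i '' A)
    (fun i => (g i).toHomeomorph.isClosedMap A hA) d hd 0 (by rw [hcov]; exact Set.subset_univ _)
  obtain ⟨x', hx', rfl⟩ := hx
  obtain ⟨y', hy', rfl⟩ := hy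
  exact ⟨x', hx', y', hy', by rw [← hxy, (g i).dist_eq]⟩

end Pool.Agent.Results.MP_d577c7_co.SixClosedSets
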